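import Mathlib
import Pool.Agent.V5helper26.PM.Minor
import Pool.Agent.V5helper26.PM.Abs
import Pool.Agent.TH915.PW.PrimeSum
import Pool.Agent.TH915.PW.APCount

/-!
# Exponential sums over the primes of a residue class with real polynomials

The leading coefficient is not near to rational numbers with small denominators; the other
coefficients are arbitrary.
-/

set_option autoImplicit false

namespace Pool.Agent.V5helper26.RP

open Finset Polynomial Filter Topology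
open Pool.Agent.H469R2.NK (e norm_e e_add)
open Pool.Agent.R486.PD (Near)
open Pool.Agent.V5helper26.PM (SL minorV e_eq_ee)
open Pool.Agent.TH915.PW (class_bound prime_bound abel_bound card_primes)
open Pool.Agent.W147.PS (ev_pow)

/-- constants for all degrees up to `D` -/
lemma consts (D : ℕ) : ∃ C : ℕ, 1 ≤ C ∧ ∃ W₀ : ℝ, ∀ D' : ℕ, 1 ≤ D' → D' ≤ D → ∀ f : ℝ[X],
    f.natDegree ≤ D' → ∀ (N : ℕ) (L : ℝ), 1 ≤ L → W₀ ≤ L → Real.log N ≤ L → L ^ C ≤ N →
      N / L ≤ ‖SL f N‖ → Near D' N (L ^ C) (f.coeff D') := by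
  have hex : ∀ D : ℕ, ∃ C W₀ : ℕ, 1 ≤ D → ∀ f : ℝ[X], f.natDegree ≤ D → ∀ (N : ℕ) (L : ℝ),
      W₀ ≤ L → Real.log N ≤ L → L ^ C ≤ N → N / L ≤ ‖SL f N‖ → Near D N (L ^ C) (f.coeff D) := by
    intro D
    by_cases hD : 1 ≤ D
    · obtain ⟨C, W₀, h⟩ := minorV D hD
      exact ⟨C, W₀, fun _ => h⟩
    · exact ⟨0, 0, fun h => absurd h hD⟩
  choose Cf Wf hmin using hex
  set Cm : ℕ := ∑ D ∈ range (D + 1), Cf D + 1 with hCm
  set Wm : ℝ := ∑ D ∈ range (D + 1), (Wf D : ℝ) with hWm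
  refine ⟨Cm, by omega, Wm, ?_⟩
  intro D' hD1 hD2 f hf N L hL1 hLW hLlog hLN hS
  have h1 : Cf D' ≤ Cm := by
    have h1 : Cf D' ≤ ∑ D ∈ range (D + 1), Cf D :=
      single_le_sum (fun i _ => Nat.zero_le (Cf i)) (mem_range.2 (Nat.lt_succ_of_le hD2))
    rw [hCm]
    exact h1.trans (Nat.le_succ _)
  have h2 : (Wf D' : ℝ) ≤ Wm :=
    single_le_sum (f := fun D => (Wf D : ℝ)) (fun i _ => Nat.cast_nonneg (Wf i))
      (mem_range.2 (Nat.lt_succ_of_le hD2))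
  have h3 : L ^ Cf D' ≤ L ^ Cm := pow_le_pow_right₀ hL1 h1
  exact (hmin D' hD1 f hf N L (h2.trans hLW) hLlog (h3.trans hLN) hS).mono h3

/-- **sums with the von Mangoldt function** -/
lemma mangoldt_poly (D d : ℕ) (hd : 1 ≤ d) (ε : ℝ) (hε : 0 < ε) (hε1 : ε ≤ 1 / 2) :
    ∃ τ : ℝ, 0 < τ ∧ τ ≤ 1 / 16 ∧ ∀ᶠ Z : ℝ in atTop, ∀ F : ℝ[X], 1 ≤ F.natDegree →
      F.natDegree ≤ D → (∀ t : ℕ, 1 ≤ t → (t : ℝ) ≤ Z ^ (ε / 2) → ∀ m : ℤ,
        Z ^ (ε - F.natDegree) ≤ |t * F.leadingCoeff - m|) →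
      ∀ q : ℕ, 1 ≤ q → (q : ℝ) ≤ Z ^ (ε / 4) → ∀ j : ℤ, ∀ N : ℕ, Z / 2 ≤ N → (N : ℝ) ≤ 2 * Z →
        ‖∑ n ∈ Icc 1 N, ((ArithmeticFunction.vonMangoldt n : ℝ) : ℂ) *
          e (F.eval (n : ℝ) / q + (j : ℝ) / d * n)‖ ≤ Z ^ (1 - τ) := by
  obtain ⟨A₀, hC1, W₀, hC⟩ := consts D
  have hCR : (1 : ℝ) ≤ A₀ := by exact_mod_cast hC1
  have hdR : (1 : ℝ) ≤ d := by exact_mod_cast hd
  set σ : ℝ := ε / (8 * A₀) with hσ
  have hσ0 : 0 < σ := by positivity
  have hσC : σ * A₀ = ε / 8 := by rw [hσ]; field_simp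
  have hσ1 : σ ≤ 1 / 16 := by
    rw [hσ, div_le_iff₀ (by positivity)]
    nlinarith
  refine ⟨σ / 2, by positivity, by linarith, ?_⟩
  have hloge : ∀ᶠ Z : ℝ in atTop, Real.log (2 * Z) ≤ Z ^ σ := by
    have e1 := (isLittleO_log_rpow_atTop (show 0 < σ / 2 by positivity)).def
      (show (0 : ℝ) < 1 by norm_num)
    have e2 : Tendsto (fun Z : ℝ => 2 * Z) atTop atTop := tendsto_id.const_mul_atTop (by norm_num)
    filter_upwards [e2.eventually e1, eventually_ge_atTop (1 : ℝ),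
      ev_pow (σ / 2) σ (2 ^ (σ / 2)) (by linarith)] with Z e3 e4 e5
    rw [Real.norm_eq_abs, Real.norm_eq_abs, abs_of_nonneg (Real.log_nonneg (by linarith)),
      abs_of_nonneg (by positivity), one_mul, Real.mul_rpow (by norm_num) (by linarith)] at e3
    linarith
  filter_upwards [hloge, (tendsto_rpow_atTop hσ0).eventually_ge_atTop W₀,
    eventually_ge_atTop (4 : ℝ), ev_pow (ε / 8) 1 2 (by linarith),
    ev_pow (1 - σ) (1 - σ / 2) 2 (by linarith), ev_pow (ε / 8) (ε / 2) d (by linarith),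
    ev_pow (ε / 4 + ε / 8) ε (2 * (d * 2 ^ D)) (by linarith)]
    with Z hlog hW hZ4 hp1 hp2 hp3 hp4
  intro F hF1 hFD hF q hq hqZ j N hN1 hN2
  have hZ0 : 0 < Z := by linarith
  have hZ1 : 1 ≤ Z := by linarith
  have hNpos : (0 : ℝ) < N := by linarith
  set D' := F.natDegree with hD'
  set L : ℝ := Z ^ σ with hL
  have hL1 : 1 ≤ L := Real.one_le_rpow hZ1 hσ0.le
  have hLC : L ^ A₀ = Z ^ (ε / 8) := by
    rw [hL, ← Real.rpow_natCast, ← Real.rpow_mul hZ0.le, hσC]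
  have hLN : L ^ A₀ ≤ N := by
    rw [hLC]
    rw [Real.rpow_one] at hp1
    linarith
  have hq0 : (0 : ℝ) < q := by exact_mod_cast hq
  have hd0 : (0 : ℝ) < d := by linarith
  -- the polynomial
  set f : ℝ[X] := C (1 / (q : ℝ)) * F + C ((j : ℝ) / d) * X with hf
  have hfd : f.natDegree ≤ D' := by
    refine (natDegree_add_le _ _).trans (max_le (natDegree_C_mul_le _ _) ?_)
    exact (natDegree_C_mul_le _ _).trans (natDegree_X_le.trans hF1)
  have hSL : SL f N = ∑ n ∈ Icc 1 N, ((ArithmeticFunction.vonMangoldt n : ℝ) : ℂ) *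
      e (F.eval (n : ℝ) / q + (j : ℝ) / d * n) := by
    unfold SL
    refine sum_congr rfl fun n _ => ?_
    rw [← e_eq_ee, hf, eval_add, eval_mul, eval_mul, eval_C, eval_C, eval_X]
    congr 2
    ring
  rw [← hSL]
  by_contra hbig
  push Not at hbig
  have hbig2 : N / L ≤ ‖SL f N‖ := by
    refine le_trans ?_ hbig.le
    rw [div_le_iff₀ (by linarith)]
    calc (N : ℝ) ≤ 2 * Z := hN2
      _ = 2 * Z ^ (1 - σ) * L := by
          rw [hL, mul_assoc, ← Real.rpow_add hZ0, sub_add_cancel, Real.rpow_one]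
      _ ≤ Z ^ (1 - σ / 2) * L := mul_le_mul_of_nonneg_right hp2 (by linarith)
  have hlogN : Real.log N ≤ L := (Real.log_le_log hNpos hN2).trans hlog
  obtain ⟨t, ht1, ht2, a, ha⟩ := hC D' hF1 hFD f hfd N L hL1 hW hlogN hLN hbig2
  -- the coefficient
  have hco : ∃ i : ℤ, f.coeff D' = F.leadingCoeff / q + i / d := by
    by_cases h1 : D' = 1
    · refine ⟨j, ?_⟩
      rw [hf, coeff_add, coeff_C_mul, coeff_C_mul, leadingCoeff, ← hD', h1, coeff_X_one]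
      ring
    · refine ⟨0, ?_⟩
      rw [hf, coeff_add, coeff_C_mul, coeff_C_mul, leadingCoeff, ← hD', coeff_X,
        if_neg (fun h => h1 h.symm)]
      push_cast
      ring
  obtain ⟨i, hi⟩ := hco
  rw [hi] at ha
  have ht0 : (1 : ℝ) ≤ t := by exact_mod_cast ht1
  have htd : ((t * d : ℕ) : ℝ) ≤ Z ^ (ε / 2) := by
    push_cast
    calc (t : ℝ) * d ≤ Z ^ (ε / 8) * d := mul_le_mul_of_nonneg_right (by rw [← hLC]; exact ht2) hd0.le
      _ = d * Z ^ (ε / 8) := mul_comm _ _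
      _ ≤ _ := hp3
  have h1 := hF (t * d) (by
    have := Nat.mul_le_mul ht1 hd
    simpa using this) htd (a * q * d - t * i * q)
  have h2 : ((t * d : ℕ) : ℝ) * F.leadingCoeff - ((a * q * d - t * i * q : ℤ) : ℝ) =
      (q * d) * (t * (F.leadingCoeff / q + i / d) - a) := by
    push_cast
    field_simp
    ring
  rw [h2, abs_mul, abs_of_pos (by positivity : (0 : ℝ) < q * d)] at h1
  have hND : (Z / 2) ^ D' ≤ (N : ℝ) ^ D' := pow_le_pow_left₀ (by linarith) hN1 _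
  have h3 : (q * d : ℝ) * |t * (F.leadingCoeff / q + i / d) - a| ≤
      (Z ^ (ε / 4) * d) * (Z ^ (ε / 8) / (Z / 2) ^ D') := by
    apply mul_le_mul (mul_le_mul_of_nonneg_right hqZ hd0.le) _ (abs_nonneg _) (by positivity)
    refine ha.trans ?_
    rw [hLC]
    exact div_le_div_of_nonneg_left (by positivity) (by positivity) hND
  have h4 : (Z ^ (ε / 4) * d) * (Z ^ (ε / 8) / (Z / 2) ^ D') =
      (d * 2 ^ D') * Z ^ (ε / 4 + ε / 8) / Z ^ D' := by
    rw [div_pow, Real.rpow_add hZ0]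
    field_simp
  have h5 : (2 : ℝ) ^ D' ≤ 2 ^ D := pow_le_pow_right₀ (by norm_num) hFD
  have h6 : Z ^ (ε - D') = Z ^ ε / Z ^ D' := by
    rw [Real.rpow_sub hZ0, Real.rpow_natCast]
  rw [h6] at h1
  have h7 : Z ^ ε / Z ^ D' ≤ (d * 2 ^ D) * Z ^ (ε / 4 + ε / 8) / Z ^ D' := by
    refine h1.trans (h3.trans (le_of_eq_of_le h4 ?_))
    gcongr
  have h8 : 0 < Z ^ D' := by positivity
  rw [div_le_div_iff_of_pos_right h8] at h7
  have h9 : 0 < Z ^ ε := by positivity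
  linarith

open Classical in
/-- **sums over primes** -/
theorem exp_poly (D d b : ℕ) (hd : 0 < d) (ε : ℝ) (hε : 0 < ε) (hε1 : ε ≤ 1 / 2) :
    ∃ ρ : ℝ, 0 < ρ ∧ ρ ≤ 1 / 16 ∧ ∀ᶠ Z : ℝ in atTop, ∀ F : ℝ[X], 1 ≤ F.natDegree →
      F.natDegree ≤ D → (∀ t : ℕ, 1 ≤ t → (t : ℝ) ≤ Z ^ (ε / 2) → ∀ m : ℤ,
        Z ^ (ε - F.natDegree) ≤ |t * F.leadingCoeff - m|) →
      ∀ q : ℕ, 1 ≤ q → (q : ℝ) ≤ Z ^ (ε / 4) → ⌊Z⌋₊ < ⌊(1 + ε) * Z⌋₊ →
      ‖∑ p ∈ (Ioc ⌊Z⌋₊ ⌊(1 + ε) * Z⌋₊).filter (fun p => p.Prime ∧ p ≡ b [MOD d]),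
        e (F.eval (p : ℝ) / q)‖ ≤ Z ^ (1 - ρ) := by
  obtain ⟨τ, hτ0, hτ1, hvm⟩ := mangoldt_poly D d hd ε hε hε1
  have hlogev : ∀ᶠ Z : ℝ in atTop, Real.log (2 * Z) ≤ Z ^ (1 / 4 : ℝ) := by
    have e1 := (isLittleO_log_rpow_atTop (show (0 : ℝ) < 1 / 8 by norm_num)).def
      (show (0 : ℝ) < 1 by norm_num)
    have e2 : Tendsto (fun Z : ℝ => 2 * Z) atTop atTop := tendsto_id.const_mul_atTop (by norm_num)
    filter_upwards [e2.eventually e1, eventually_ge_atTop (1 : ℝ),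
      ev_pow (1 / 8) (1 / 4) (2 ^ (1 / 8 : ℝ)) (by norm_num)] with Z e3 e4 e5
    rw [Real.norm_eq_abs, Real.norm_eq_abs, abs_of_nonneg (Real.log_nonneg (by linarith)),
      abs_of_nonneg (by positivity), one_mul, Real.mul_rpow (by norm_num) (by linarith)] at e3
    linarith
  refine ⟨τ / 2, by positivity, by linarith, ?_⟩
  filter_upwards [hvm, hlogev, eventually_ge_atTop (4 : ℝ), ev_pow (3 / 4) (1 - τ) 4 (by linarith),
    ev_pow (1 - τ) (1 - τ / 2) 3 (by linarith)] with Z hv hlog hZ4 hp1 hp2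
  intro F hF1 hFD hF q hq hqZ hm01
  have hZ0 : 0 < Z := by linarith
  have hZ1 : 1 ≤ Z := by linarith
  set m₀ : ℕ := ⌊Z⌋₊ with hm₀
  set m₁ : ℕ := ⌊(1 + ε) * Z⌋₊ with hm₁
  have hm04 : 4 ≤ m₀ := Nat.le_floor (by exact_mod_cast hZ4)
  have hm0le : (m₀ : ℝ) ≤ Z := Nat.floor_le hZ0.le
  have hm0lt : Z < m₀ + 1 := Nat.lt_floor_add_one _
  have hm0half : Z / 2 ≤ (m₀ : ℝ) := by linarith
  have hm1' : (m₁ : ℝ) ≤ (1 + ε) * Z := Nat.floor_le (by positivity)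
  have hm1 : (m₁ : ℝ) ≤ 2 * Z := by nlinarith
  set E : ℝ := 3 * Z ^ (1 - τ) with hE
  have hE0 : 0 ≤ E := by positivity
  set G : ℕ → ℂ := fun n => (((if n.Prime then Real.log n else 0 : ℝ)) : ℂ) *
    e (F.eval (n : ℝ) / q) with hG
  have hcls : ∀ t : ℕ, m₀ ≤ t → t ≤ m₁ →
      ‖∑ n ∈ (Ioc m₀ t).filter (fun n => n ≡ b [MOD d]), G n‖ ≤ E := by
    intro t ht1 ht2
    have htr : (t : ℝ) ≤ 2 * Z := by
      have : (t : ℝ) ≤ m₁ := by exact_mod_cast ht2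
      linarith
    have htr2 : Z / 2 ≤ (t : ℝ) := by
      have : (m₀ : ℝ) ≤ t := by exact_mod_cast ht1
      linarith
    have ht0 : 1 ≤ t := by omega
    have htlog : 2 * √(t : ℝ) * Real.log t ≤ Z ^ (1 - τ) := by
      have h7 : √(t : ℝ) ≤ 2 * Z ^ (1 / 2 : ℝ) := by
        rw [← Real.sqrt_eq_rpow]
        calc √(t : ℝ) ≤ √(2 ^ 2 * Z) := Real.sqrt_le_sqrt (by linarith)
          _ = 2 * √Z := by rw [Real.sqrt_mul (by norm_num), Real.sqrt_sq (by norm_num)]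
      have h8 : Real.log (t : ℝ) ≤ Z ^ (1 / 4 : ℝ) := by
        refine le_trans ?_ hlog
        apply Real.log_le_log _ htr
        exact_mod_cast ht0
      have h9 : 0 ≤ Real.log (t : ℝ) := Real.log_nonneg (by exact_mod_cast ht0)
      calc 2 * √(t : ℝ) * Real.log t ≤ 2 * (2 * Z ^ (1 / 2 : ℝ)) * Z ^ (1 / 4 : ℝ) := by gcongr
        _ = 4 * (Z ^ (1 / 2 : ℝ) * Z ^ (1 / 4 : ℝ)) := by ring
        _ = 4 * Z ^ (3 / 4 : ℝ) := by rw [← Real.rpow_add hZ0]; norm_num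
        _ ≤ _ := hp1
    apply class_bound (Ioc m₀ t) G d hd b E
    intro j _
    set g : ℕ → ℂ := fun n => e (F.eval (n : ℝ) / q + ((j : ℤ) : ℝ) / d * n) with hg
    have hsplit : ‖∑ n ∈ Ioc m₀ t, ((ArithmeticFunction.vonMangoldt n : ℝ) : ℂ) * g n‖ ≤
        2 * Z ^ (1 - τ) := by
      have h1 := hv F hF1 hFD hF q hq hqZ (j : ℤ) t htr2 htr
      have h2 := hv F hF1 hFD hF q hq hqZ (j : ℤ) m₀ hm0half (by linarith)
      have h3 : ∑ n ∈ Icc 1 t, ((ArithmeticFunction.vonMangoldt n : ℝ) : ℂ) * g n =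
          ∑ n ∈ Icc 1 m₀, ((ArithmeticFunction.vonMangoldt n : ℝ) : ℂ) * g n +
          ∑ n ∈ Ioc m₀ t, ((ArithmeticFunction.vonMangoldt n : ℝ) : ℂ) * g n := by
        rw [← sum_union]
        · apply sum_congr _ fun _ _ => rfl
          ext n
          rw [mem_union, mem_Icc, mem_Icc, mem_Ioc]
          omega
        · rw [disjoint_left]
          intro n hn hn'
          rw [mem_Icc] at hn
          rw [mem_Ioc] at hn'
          omega
      have h4 : ∑ n ∈ Ioc m₀ t, ((ArithmeticFunction.vonMangoldt n : ℝ) : ℂ) * g n =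
          ∑ n ∈ Icc 1 t, ((ArithmeticFunction.vonMangoldt n : ℝ) : ℂ) * g n -
          ∑ n ∈ Icc 1 m₀, ((ArithmeticFunction.vonMangoldt n : ℝ) : ℂ) * g n := by
        rw [h3]; ring
      rw [h4]
      refine (norm_sub_le _ _).trans ?_
      rw [two_mul]
      exact add_le_add h1 h2
    have h2 := prime_bound m₀ t ht0 g (fun n => (norm_e _).le) _ hsplit
    have h3 : ∑ n ∈ Ioc m₀ t, G n * e ((j : ℝ) / d * n) =
        ∑ n ∈ Ioc m₀ t, (((if n.Prime then Real.log n else 0 : ℝ)) : ℂ) * g n := by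
      refine sum_congr rfl fun n _ => ?_
      rw [hG, hg]
      simp only
      rw [mul_assoc, ← e_add]
      push_cast
      rfl
    rw [h3]
    refine h2.trans ?_
    rw [hE]
    linarith
  set A : ℕ → ℂ := fun n => if n ≡ b [MOD d] then G n else 0 with hA
  set w : ℕ → ℝ := fun n => (Real.log n)⁻¹ with hw
  have hlogpos : ∀ n : ℕ, m₀ < n → 1 ≤ Real.log n := by
    intro n hn
    rw [Real.le_log_iff_exp_le (by
      have : 0 < n := by omega
      exact_mod_cast this)]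
    have h1 := Real.exp_one_lt_d9
    have h2 : (5 : ℝ) ≤ n := by exact_mod_cast (by omega : 5 ≤ n)
    linarith
  have hab := abel_bound w A m₀ E (fun n hn => by
      have := hlogpos n hn
      rw [hw]
      positivity) (fun n hn => by
      have h1 := hlogpos n hn
      rw [hw]
      simp only
      apply inv_anti₀ (by linarith)
      apply Real.log_le_log
      · have : 0 < n := by omega
        exact_mod_cast this
      · push_cast
        linarith) m₁ hm01 (fun t ht1 ht2 => by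
      have h1 := hcls t ht1.le ht2
      rw [sum_filter] at h1
      exact h1)
  have hsum : ∑ p ∈ (Ioc m₀ m₁).filter (fun p => p.Prime ∧ p ≡ b [MOD d]),
      e (F.eval (p : ℝ) / q) = ∑ i ∈ Ioc m₀ m₁, (w i : ℂ) * A i := by
    rw [sum_filter]
    refine sum_congr rfl fun n hn => ?_
    have hn0 := hlogpos n (Finset.mem_Ioc.mp hn).1
    rw [hA, hw, hG]
    simp only
    by_cases h1 : n ≡ b [MOD d]
    · by_cases h2 : n.Prime
      · rw [if_pos ⟨h2, h1⟩, if_pos h1, if_pos h2, ← mul_assoc]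
        rw [← Complex.ofReal_mul, inv_mul_cancel₀ (by linarith), Complex.ofReal_one, one_mul]
      · rw [if_neg (fun h3 => h2 h3.1), if_pos h1, if_neg h2]
        simp
    · rw [if_neg (fun h3 => h1 h3.2), if_neg h1, mul_zero]
  rw [hsum]
  refine hab.trans ?_
  have hw1 : w (m₀ + 1) ≤ 1 := by
    rw [hw]
    exact inv_le_one_of_one_le₀ (hlogpos (m₀ + 1) (by omega))
  calc w (m₀ + 1) * E ≤ 1 * E := mul_le_mul_of_nonneg_right hw1 hE0
    _ = 3 * Z ^ (1 - τ) := by rw [one_mul]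
    _ ≤ _ := hp2

end Pool.Agent.V5helper26.RP
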