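import Mathlib
import Pool.Agent.V5helper26.RP.ExpPoly
import Pool.Agent.N542.PQ.Joint

/-!
# Record prime gaps around nonintegral powers and real polynomials of one prime number
-/

set_option autoImplicit false

namespace Pool.Agent.V5helper26.RP

open Finset Filter Topology
open Polynomial hiding C X
open Pool.Agent.H469R2.NK (e norm_e e_add)
open Pool.Agent.N542.PP (SV)
open Pool.Agent.N542.PQ (exp_primes)
open Pool.Agent.TH915.PW (card_primes)
open Pool.Agent.W147.PS (ff ev_pow)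
open Pool.Agent.Y961.JR (crit_scaledJ)

/-- the leading coefficients of the small integral combinations are not very near to integers -/
def PolyDio (ε Z : ℝ) (D : ℕ) {s : ℕ} (Q : Fin s → Polynomial ℝ) : Prop :=
  ∀ h : Fin s → ℤ, h ≠ 0 → (∀ i, |(h i : ℝ)| ≤ Z ^ ε) →
    1 ≤ (∑ i, Polynomial.C (h i : ℝ) * Q i).natDegree ∧
    (∑ i, Polynomial.C (h i : ℝ) * Q i).natDegree ≤ D ∧
    ∀ m : ℤ, Z ^ (ε - (∑ i, Polynomial.C (h i : ℝ) * Q i).natDegree) ≤
      |(∑ i, Polynomial.C (h i : ℝ) * Q i).leadingCoeff - m|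

lemma polyDio_deg {ε Z : ℝ} {D s : ℕ} {Q : Fin s → Polynomial ℝ} (h : PolyDio ε Z D Q)
    (hZ : 1 ≤ Z) (hε : 0 ≤ ε) (i : Fin s) : (Q i).natDegree ≤ D := by
  have h1 := (h (Pi.single i 1) (by
    intro h0
    have := congrFun h0 i
    simp at this) (by
    intro j
    have h2 : (1 : ℝ) ≤ Z ^ ε := Real.one_le_rpow hZ hε
    by_cases hj : j = i
    · subst hj
      simpa using h2
    · rw [Pi.single_eq_of_ne hj]
      simp
      positivity)).2.1
  have h2 : ∑ j, Polynomial.C (((Pi.single i 1 : Fin s → ℤ) j : ℤ) : ℝ) * Q j = Q i := by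
    rw [Finset.sum_eq_single i]
    · simp
    · intro j _ hj
      rw [Pi.single_eq_of_ne hj]
      simp
    · intro hi
      exact absurd (Finset.mem_univ i) hi
  rw [h2] at h1
  exact h1

/-- the bound for the nonintegral part, also without functions -/
lemma exp_primes' {r : ℕ} (c u : Fin r → ℝ) (F : Fin r → ℕ → ℝ → ℝ)
    (hSV : ∀ j, SV (c j) (F j)) (hcn : ∀ j, ∀ n : ℕ, c j ≠ n) (hv : ∀ j, 0 < c j + u j)
    (hinj : Function.Injective (fun j => c j + u j)) (D d b : ℕ) (hd : 0 < d) (ε : ℝ)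
    (hε : 0 < ε) (hε1 : ε ≤ 1 / 2) :
    ∃ ρ δ : ℝ, 0 < ρ ∧ ρ ≤ 1 / 8 ∧ 0 < δ ∧ ∀ᶠ Z : ℝ in atTop, ∀ (α : Fin r → ℝ)
      (h : Fin r → ℤ) (q : ℕ) (P : Polynomial ℝ),
      (∀ j, Z ^ (u j - δ) ≤ |α j| ∧ |α j| ≤ Z ^ (u j + δ)) → 1 ≤ q → (q : ℝ) ≤ Z ^ δ → h ≠ 0 →
      (∀ j, |(h j : ℝ)| ≤ Z ^ δ) → P.natDegree ≤ D → ⌊Z⌋₊ < ⌊(1 + ε) * Z⌋₊ →
      ‖∑ p ∈ (Ioc ⌊Z⌋₊ ⌊(1 + ε) * Z⌋₊).filter (fun p => p.Prime ∧ p ≡ b [MOD d]),
        e (∑ j, (h j : ℝ) * α j / q * F j 0 p + P.eval (p : ℝ))‖ ≤ 2 * Z ^ (1 - ρ) := by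
  rcases Nat.eq_zero_or_pos r with h0 | hr
  · subst h0
    refine ⟨1 / 8, 1, by norm_num, le_rfl, one_pos, Eventually.of_forall ?_⟩
    intro Z α h q P _ _ _ hh
    exact absurd (Subsingleton.elim h 0) hh
  · exact exp_primes hr c u F hSV hcn hv hinj D d b hd ε hε hε1

theorem joint {r s : ℕ} (hrs : 1 ≤ r + s) (c u : Fin r → ℝ) (F : Fin r → ℕ → ℝ → ℝ)
    (hSV : ∀ j, SV (c j) (F j)) (hcn : ∀ j, ∀ n : ℕ, c j ≠ n) (hv : ∀ j, 0 < c j + u j)
    (hinj : Function.Injective (fun j => c j + u j)) (D d b : ℕ) (hd : 0 < d) (hb : b.Coprime d)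
    (ε : ℝ) (hε : 0 < ε) (hε1 : ε ≤ 1 / 2) :
    ∃ κ δ : ℝ, 0 < κ ∧ 0 < δ ∧ ∀ᶠ Z : ℝ in atTop, ∀ (α : Fin r → ℝ) (P : Fin r → Polynomial ℝ)
      (Q : Fin s → Polynomial ℝ),
      (∀ j, Z ^ (u j - δ) ≤ |α j| ∧ |α j| ≤ Z ^ (u j + δ)) → (∀ j, (P j).natDegree ≤ D) →
      PolyDio ε Z D Q →
      (∀ j, ∀ n : ℕ, Z < n → (n : ℝ) ≤ (1 + ε) * Z → Z ^ ε ≤ α j * F j 0 n + (P j).eval (n : ℝ)) →
      (∀ i, ∀ n : ℕ, Z < n → (n : ℝ) ≤ (1 + ε) * Z → Z ^ ε ≤ (Q i).eval (n : ℝ)) →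
      ∃ G : Finset ℕ, Z ^ (1 - ε) ≤ (G.card : ℝ) ∧ ∀ p ∈ G, p.Prime ∧ p ≡ b [MOD d] ∧
        Z < p ∧ (p : ℝ) ≤ (1 + ε) * Z ∧
        (∀ j, ∀ q : ℕ, q.Prime → κ * ff Z < |(q : ℝ) - (α j * F j 0 p + (P j).eval (p : ℝ))|) ∧
        (∀ i, ∀ q : ℕ, q.Prime → κ * ff Z < |(q : ℝ) - (Q i).eval (p : ℝ)|) := by
  classical
  obtain ⟨ρ₁, δ, hρ1, hρ1', hδ, hexp⟩ := exp_primes' c u F hSV hcn hv hinj D d b hd ε hε hε1
  obtain ⟨ρ₂, hρ2, hρ2', hexp2⟩ := exp_poly D d b hd ε hε hε1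
  set ρ : ℝ := min ρ₁ ρ₂ with hρ
  have hρ0 : 0 < ρ := lt_min hρ1 hρ2
  have hρa : ρ ≤ ρ₁ := min_le_left _ _
  have hρb : ρ ≤ ρ₂ := min_le_right _ _
  set η : ℝ := min (min (ρ / 8) δ) (min (ε / 8) (1 / 8)) with hη
  have hη0 : 0 < η := lt_min (lt_min (by positivity) hδ) (lt_min (by positivity) (by norm_num))
  have hηρ : η ≤ ρ / 8 := (min_le_left _ _).trans (min_le_left _ _)
  have hηδ : η ≤ δ := (min_le_left _ _).trans (min_le_right _ _)
  have hηε : η ≤ ε / 8 := (min_le_right _ _).trans (min_le_left _ _)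
  set ι : ℝ := min (ρ / 8) (ε / 8) with hι
  have hι0 : 0 < ι := lt_min (by positivity) (by positivity)
  have hι1 : ι ≤ ρ / 8 := min_le_left _ _
  have hι2 : ι ≤ ε / 8 := min_le_right _ _
  obtain ⟨κ, hκ, hcrit⟩ := crit_scaledJ (r + s) hrs η hη0 (by linarith)
  refine ⟨κ, δ, hκ, hδ, ?_⟩
  filter_upwards [hexp, hexp2, hcrit, card_primes d hd b hb ε ι hε (by linarith) hι0,
    eventually_ge_atTop (4 : ℝ), ev_pow (1 - ρ) (1 - ι - η) 16 (by linarith),
    ev_pow (-η) 0 4 (by linarith), ev_pow (1 - ε) (1 - ι - η) 2 (by linarith)]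
    with Z hex hex2 hcr hcard hZ4 hp1 hp2 hp3
  intro α P Q hα hPD hQ hsize hsize2
  rw [Real.rpow_zero] at hp2
  have hZ0 : 0 < Z := by linarith
  have hZ1 : 1 ≤ Z := by linarith
  have hQD : ∀ i, (Q i).natDegree ≤ D := polyDio_deg hQ hZ1 hε.le
  set R : Finset ℕ := (Ioc ⌊Z⌋₊ ⌊(1 + ε) * Z⌋₊).filter (fun p => p.Prime ∧ p ≡ b [MOD d]) with hR
  have hRpos : (0 : ℝ) < R.card := lt_of_lt_of_le (by positivity) hcard
  have hRmem : ∀ p ∈ R, p.Prime ∧ p ≡ b [MOD d] ∧ Z < p ∧ (p : ℝ) ≤ (1 + ε) * Z := by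
    intro p hp
    rw [hR, Finset.mem_filter, Finset.mem_Ioc] at hp
    refine ⟨hp.2.1, hp.2.2, ?_, ?_⟩
    · exact (Nat.floor_lt hZ0.le).mp hp.1.1
    · have h1 : (p : ℝ) ≤ (⌊(1 + ε) * Z⌋₊ : ℕ) := by exact_mod_cast hp.1.2
      exact h1.trans (Nat.floor_le (by positivity))
  have hm01 : ⌊Z⌋₊ < ⌊(1 + ε) * Z⌋₊ := by
    have hRne : R.Nonempty := by
      rw [← Finset.card_pos]
      exact_mod_cast hRpos
    obtain ⟨p, hp⟩ := hRne
    rw [hR, Finset.mem_filter, Finset.mem_Ioc] at hp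
    omega
  set a : ℕ → Fin (r + s) → ℝ := fun p =>
    Fin.append (fun j => α j * F j 0 p + (P j).eval (p : ℝ)) (fun i => (Q i).eval (p : ℝ)) with ha
  -- the sums over `R`
  have hsumR : ∀ q : ℕ, 1 ≤ q → (q : ℝ) ≤ Z ^ η → ∀ h : Fin (r + s) → ℤ, h ≠ 0 →
      (∀ j, |(h j : ℝ)| ≤ Z ^ η) →
      ‖∑ p ∈ R, e (∑ j, (h j : ℝ) * (a p j / q))‖ ≤ 2 * Z ^ (1 - ρ) := by
    intro q hq hqZ h hh hhZ
    have hq0 : (0 : ℝ) < q := by exact_mod_cast hq
    have hsplit : ∀ p : ℕ, ∑ j, (h j : ℝ) * (a p j / q) =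
        ∑ j : Fin r, (h (Fin.castAdd s j) : ℝ) * ((α j * F j 0 p + (P j).eval (p : ℝ)) / q) +
        ∑ i : Fin s, (h (Fin.natAdd r i) : ℝ) * ((Q i).eval (p : ℝ) / q) := by
      intro p
      rw [Fin.sum_univ_add]
      simp only [ha, Fin.append_left, Fin.append_right]
    by_cases h1 : (fun j : Fin r => h (Fin.castAdd s j)) = 0
    · -- only polynomials
      have h2 : (fun i : Fin s => h (Fin.natAdd r i)) ≠ 0 := by
        intro h2
        apply hh
        funext j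
        refine Fin.addCases (fun j => ?_) (fun i => ?_) j
        · exact congrFun h1 j
        · exact congrFun h2 i
      set g : Fin s → ℤ := fun i => h (Fin.natAdd r i) with hg
      have hmono : Z ^ η ≤ Z ^ ε := Real.rpow_le_rpow_of_exponent_le hZ1 (by linarith)
      have hgZ : ∀ i, |(g i : ℝ)| ≤ Z ^ η := fun i => hhZ _
      obtain ⟨hd1, hd2, -⟩ := hQ g h2 (fun i => (hgZ i).trans hmono)
      set f : Polynomial ℝ := ∑ i, Polynomial.C (g i : ℝ) * Q i with hf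
      have hmain := hex2 f hd1 hd2 (by
        intro t ht htZ m
        have ht0 : (t : ℝ) ≠ 0 := by
          have : (1 : ℝ) ≤ t := by exact_mod_cast ht
          linarith
        have ht0' : (0 : ℝ) ≤ t := Nat.cast_nonneg t
        have h3 := hQ (fun i => (t : ℤ) * g i) (by
          intro h0
          apply h2
          funext i
          have h4 := congrFun h0 i
          simp only [Pi.zero_apply] at h4 ⊢
          refine (mul_eq_zero.mp h4).resolve_left ?_
          exact_mod_cast (by omega : t ≠ 0)) (by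
          intro i
          push_cast
          rw [abs_mul, abs_of_nonneg ht0']
          calc (t : ℝ) * |(g i : ℝ)| ≤ Z ^ (ε / 2) * Z ^ η :=
                mul_le_mul htZ (hgZ i) (abs_nonneg _) (by positivity)
            _ = Z ^ (ε / 2 + η) := by rw [← Real.rpow_add hZ0]
            _ ≤ Z ^ ε := Real.rpow_le_rpow_of_exponent_le hZ1 (by linarith))
        have h5 : ∑ i, Polynomial.C ((((t : ℤ) * g i : ℤ)) : ℝ) * Q i = Polynomial.C (t : ℝ) * f := by
          rw [hf, Finset.mul_sum]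
          refine Finset.sum_congr rfl fun i _ => ?_
          push_cast
          rw [Polynomial.C_mul, mul_assoc]
        rw [h5, Polynomial.natDegree_C_mul ht0] at h3
        have h6 := h3.2.2 m
        rw [Polynomial.leadingCoeff_C_mul_of_isUnit (IsUnit.mk0 _ ht0)] at h6
        exact h6) q hq (hqZ.trans (Real.rpow_le_rpow_of_exponent_le hZ1 (by linarith))) hm01
      have h7 : ∑ p ∈ R, e (∑ j, (h j : ℝ) * (a p j / q)) = ∑ p ∈ R, e (f.eval (p : ℝ) / q) := by
        refine sum_congr rfl fun p _ => ?_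
        congr 1
        rw [hsplit]
        have h8 : ∑ j : Fin r, (h (Fin.castAdd s j) : ℝ) *
            ((α j * F j 0 p + (P j).eval (p : ℝ)) / q) = 0 := by
          refine Finset.sum_eq_zero fun j _ => ?_
          have h9 := congrFun h1 j
          simp only [Pi.zero_apply] at h9
          rw [h9, Int.cast_zero, zero_mul]
        rw [h8, zero_add, hf, Polynomial.eval_finset_sum, Finset.sum_div]
        refine Finset.sum_congr rfl fun i _ => ?_
        rw [Polynomial.eval_mul, Polynomial.eval_C, mul_div_assoc]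
      rw [h7]
      refine hmain.trans ?_
      have h8 : Z ^ (1 - ρ₂) ≤ Z ^ (1 - ρ) := Real.rpow_le_rpow_of_exponent_le hZ1 (by linarith)
      have h9 : 0 < Z ^ (1 - ρ) := by positivity
      linarith
    · have hmono : Z ^ η ≤ Z ^ δ := Real.rpow_le_rpow_of_exponent_le hZ1 hηδ
      have hmain := hex α (fun j => h (Fin.castAdd s j)) q
        (∑ j, Polynomial.C ((h (Fin.castAdd s j) : ℝ) / q) * P j +
          ∑ i, Polynomial.C ((h (Fin.natAdd r i) : ℝ) / q) * Q i) hα hq (hqZ.trans hmono) h1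
        (fun j => (hhZ _).trans hmono)
        ((Polynomial.natDegree_add_le _ _).trans (max_le
          (Polynomial.natDegree_sum_le_of_forall_le _ _ (fun j _ =>
            (Polynomial.natDegree_C_mul_le _ _).trans (hPD j)))
          (Polynomial.natDegree_sum_le_of_forall_le _ _ (fun i _ =>
            (Polynomial.natDegree_C_mul_le _ _).trans (hQD i))))) hm01
      have h7 : ∑ p ∈ R, e (∑ j, (h j : ℝ) * (a p j / q)) =
          ∑ p ∈ R, e (∑ j, (h (Fin.castAdd s j) : ℝ) * α j / q * F j 0 p +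
            (∑ j, Polynomial.C ((h (Fin.castAdd s j) : ℝ) / q) * P j +
              ∑ i, Polynomial.C ((h (Fin.natAdd r i) : ℝ) / q) * Q i).eval (p : ℝ)) := by
        refine sum_congr rfl fun p _ => ?_
        congr 1
        rw [hsplit, Polynomial.eval_add, Polynomial.eval_finset_sum, Polynomial.eval_finset_sum,
          ← add_assoc, ← Finset.sum_add_distrib]
        congr 1
        · refine Finset.sum_congr rfl fun j _ => ?_
          rw [Polynomial.eval_mul, Polynomial.eval_C]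
          ring
        · refine Finset.sum_congr rfl fun i _ => ?_
          rw [Polynomial.eval_mul, Polynomial.eval_C]
          ring
      rw [h7]
      refine hmain.trans ?_
      have h8 : Z ^ (1 - ρ₁) ≤ Z ^ (1 - ρ) := Real.rpow_le_rpow_of_exponent_le hZ1 (by linarith)
      linarith
  set G : Finset ℕ := R.filter (fun p => ∀ j, ∀ q : ℕ, q.Prime → κ * ff Z < |(q : ℝ) - a p j|)
    with hG
  have hGR : G ⊆ R := filter_subset _ _
  have hz0 : 0 < Z ^ (-η) := by positivity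
  have hkey : (R.card : ℝ) * Z ^ (-η) / 2 ≤ G.card := by
    by_contra hlt
    rw [not_le] at hlt
    set S : Finset ℕ := R \ G with hS
    have hScard : (S.card : ℝ) = R.card - G.card := by
      rw [hS, card_sdiff_of_subset hGR, Nat.cast_sub (card_le_card hGR)]
    have hSbig : 3 / 4 * (R.card : ℝ) ≤ S.card := by
      rw [hScard]
      nlinarith
    have hE8 : 2 * Z ^ (1 - ρ) ≤ (R.card : ℝ) * Z ^ (-η) / 8 := by
      have h2 : Z ^ (1 - ι - η) ≤ (R.card : ℝ) * Z ^ (-η) := by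
        calc Z ^ (1 - ι - η) = Z ^ (1 - ι) * Z ^ (-η) := by
              rw [← Real.rpow_add hZ0]
              congr 1
          _ ≤ _ := by gcongr
      linarith
    obtain ⟨p, hp, hp2'⟩ := hcr ℕ S a (by
        rw [← Finset.card_pos]
        have : (0 : ℝ) < S.card := by linarith
        exact_mod_cast this) (by
        intro p hp j
        have hpR := hRmem p (Finset.mem_sdiff.mp hp).1
        refine le_trans (Real.rpow_le_rpow_of_exponent_le hZ1 (by linarith : η ≤ ε)) ?_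
        refine Fin.addCases (fun j => ?_) (fun i => ?_) j
        · simp only [ha, Fin.append_left]
          exact hsize j p hpR.2.2.1 hpR.2.2.2
        · simp only [ha, Fin.append_right]
          exact hsize2 i p hpR.2.2.1 hpR.2.2.2) (by
        intro q hq hqZ h hh hhZ
        have h1 := hsumR q hq hqZ h hh hhZ
        have h2 : ∑ p ∈ S, e (∑ j, (h j : ℝ) * (a p j / q)) =
            ∑ p ∈ R, e (∑ j, (h j : ℝ) * (a p j / q)) -
            ∑ p ∈ G, e (∑ j, (h j : ℝ) * (a p j / q)) := by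
          rw [hS, ← sum_sdiff hGR]
          ring
        rw [h2]
        have h3 : ‖∑ p ∈ G, e (∑ j, (h j : ℝ) * (a p j / q))‖ ≤ G.card := by
          refine (norm_sum_le _ _).trans ?_
          simp only [norm_e, sum_const, nsmul_eq_mul, mul_one]
          exact le_rfl
        have h4 : 3 / 4 * (R.card : ℝ) * Z ^ (-η) ≤ S.card * Z ^ (-η) := by gcongr
        calc _ ≤ _ := norm_sub_le _ _
          _ ≤ 2 * Z ^ (1 - ρ) + G.card := add_le_add h1 h3
          _ ≤ _ := by nlinarith)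
    rw [hS] at hp
    have hp3' := Finset.mem_sdiff.mp hp
    apply hp3'.2
    rw [hG]
    exact Finset.mem_filter.mpr ⟨hp3'.1, hp2'⟩
  refine ⟨G, ?_, ?_⟩
  · have h2 : Z ^ (1 - ι - η) ≤ (R.card : ℝ) * Z ^ (-η) := by
      calc Z ^ (1 - ι - η) = Z ^ (1 - ι) * Z ^ (-η) := by
            rw [← Real.rpow_add hZ0]
            congr 1
        _ ≤ _ := by gcongr
    linarith
  · intro p hp
    rw [hG, mem_filter] at hp
    obtain ⟨h1, h2, h3, h4⟩ := hRmem p hp.1
    refine ⟨h1, h2, h3, h4, fun j q hq => ?_, fun i q hq => ?_⟩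
    · have h5 := hp.2 (Fin.castAdd s j) q hq
      simp only [ha, Fin.append_left] at h5
      exact h5
    · have h5 := hp.2 (Fin.natAdd r i) q hq
      simp only [ha, Fin.append_right] at h5
      exact h5

end Pool.Agent.V5helper26.RP
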