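import Mathlib
import Pool.Agent.V5helper26.RP.Joint

/-!
# The arithmetical condition of `RP.joint` for fixed polynomials
-/

set_option autoImplicit false

namespace Pool.Agent.V5helper26.RP

open Finset Filter Topology

/-- a fixed system of polynomials, the leading coefficients of whose integral combinations are not
very well approximable -/
def Diophantine {s : ℕ} (Q : Fin s → Polynomial ℝ) : Prop :=
  ∃ τ c₀ : ℝ, 0 < c₀ ∧ ∀ h : Fin s → ℤ, h ≠ 0 →
    1 ≤ (∑ i, Polynomial.C (h i : ℝ) * Q i).natDegree ∧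
    ∀ H : ℝ, (∀ i, |(h i : ℝ)| ≤ H) → ∀ m : ℤ, c₀ * H ^ (-τ) ≤
      |(∑ i, Polynomial.C (h i : ℝ) * Q i).leadingCoeff - m|

lemma natDegree_comb_le {s : ℕ} (Q : Fin s → Polynomial ℝ) (h : Fin s → ℤ) {D : ℕ}
    (hD : ∀ i, (Q i).natDegree ≤ D) :
    (∑ i, Polynomial.C (h i : ℝ) * Q i).natDegree ≤ D := by
  apply Polynomial.natDegree_sum_le_of_forall_le
  intro i _
  exact (Polynomial.natDegree_C_mul_le _ _).trans (hD i)

/-- the condition of `joint` holds for large `Z` -/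
lemma Diophantine.ev {s : ℕ} {Q : Fin s → Polynomial ℝ} (hQ : Diophantine Q) {D : ℕ}
    (hD : ∀ i, (Q i).natDegree ≤ D) :
    ∃ ε₀ : ℝ, 0 < ε₀ ∧ ∀ ε : ℝ, 0 < ε → ε ≤ ε₀ → ∀ᶠ Z : ℝ in atTop, PolyDio ε Z D Q := by
  obtain ⟨τ, c₀, hc, h⟩ := hQ
  refine ⟨1 / (2 * (|τ| + 2)), by positivity, ?_⟩
  intro ε hε hε1
  have h1 : ε * (|τ| + 2) ≤ 1 / 2 := by
    have h2 : 0 < |τ| + 2 := by positivity
    calc ε * (|τ| + 2) ≤ 1 / (2 * (|τ| + 2)) * (|τ| + 2) := mul_le_mul_of_nonneg_right hε1 h2.le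
      _ = 1 / 2 := by field_simp
  have h2 : ∀ᶠ Z : ℝ in atTop, 1 / c₀ ≤ Z ^ (1 / 4 : ℝ) :=
    (tendsto_rpow_atTop (by norm_num)).eventually_ge_atTop _
  filter_upwards [h2, eventually_ge_atTop (1 : ℝ)] with Z hZ hZ1
  intro g hg hgb
  obtain ⟨hdeg, hlc⟩ := h g hg
  refine ⟨hdeg, natDegree_comb_le Q g hD, ?_⟩
  intro m
  have hZ0 : 0 < Z := by linarith
  have h3 := hlc (Z ^ ε) hgb m
  refine le_trans ?_ h3
  have h4 : Z ^ (-(|τ| * ε)) ≤ (Z ^ ε) ^ (-τ) := by
    rw [← Real.rpow_mul hZ0.le]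
    apply Real.rpow_le_rpow_of_exponent_le hZ1
    nlinarith [le_abs_self τ]
  have h5 : (1 : ℝ) ≤ ((∑ i, Polynomial.C (g i : ℝ) * Q i).natDegree : ℝ) := by exact_mod_cast hdeg
  have h6 : Z ^ (ε - ((∑ i, Polynomial.C (g i : ℝ) * Q i).natDegree : ℝ)) ≤ Z ^ (ε - 1) :=
    Real.rpow_le_rpow_of_exponent_le hZ1 (by linarith)
  have h7 : Z ^ (ε - 1) ≤ c₀ * Z ^ (-(|τ| * ε)) := by
    have h8 : Z ^ (ε - 1) = Z ^ (ε - 1 + |τ| * ε) * Z ^ (-(|τ| * ε)) := by
      rw [← Real.rpow_add hZ0]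
      congr 1
      ring
    rw [h8]
    apply mul_le_mul_of_nonneg_right _ (by positivity)
    have h9 : Z ^ (ε - 1 + |τ| * ε) ≤ Z ^ (-(1 / 4 : ℝ)) := by
      apply Real.rpow_le_rpow_of_exponent_le hZ1
      nlinarith
    refine h9.trans ?_
    rw [Real.rpow_neg hZ0.le, inv_le_comm₀ (by positivity) hc, inv_eq_one_div]
    exact hZ
  exact (h6.trans h7).trans (mul_le_mul_of_nonneg_left h4 hc.le)

/-- distinct degrees and irrational leading coefficients that are not Liouville numbers -/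
lemma diophantine_of_degrees {s : ℕ} {Q : Fin s → Polynomial ℝ} (hdeg : ∀ i, 1 ≤ (Q i).natDegree)
    (hinj : Function.Injective fun i => (Q i).natDegree)
    (hirr : ∀ i, Irrational (Q i).leadingCoeff) (hL : ∀ i, ¬ Liouville (Q i).leadingCoeff) :
    Diophantine Q := by
  classical
  have h0 : ∀ i, ∃ n : ℕ, ∀ h m : ℤ, h ≠ 0 →
      (2 * |(h : ℝ)|) ^ (-(n : ℝ)) ≤ |(h : ℝ) * (Q i).leadingCoeff - m| := by
    intro i
    have h1 := hL i
    unfold Liouville at h1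
    push Not at h1
    obtain ⟨n, hn⟩ := h1
    refine ⟨n, ?_⟩
    intro h m hh
    set β := (Q i).leadingCoeff with hβ
    have hh1 : (1 : ℝ) ≤ |(h : ℝ)| := by
      rw [← Int.cast_abs]
      exact_mod_cast Int.one_le_abs hh
    have hh0 : (h : ℝ) ≠ 0 := by exact_mod_cast hh
    -- apply with denominator `2 |h|`
    have h2 := hn (2 * (h.sign * m)) (2 * |h|) (by
      have := Int.one_le_abs hh
      omega) (by
      intro h3
      apply hirr i
      rw [← hβ, h3]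
      exact ⟨((2 * (h.sign * m) : ℤ) : ℚ) / ((2 * |h| : ℤ) : ℚ), by push_cast; ring⟩)
    have h3 : ((2 * (h.sign * m) : ℤ) : ℝ) / ((2 * |h| : ℤ) : ℝ) = m / h := by
      have h4 : (h : ℝ) = ((h.sign : ℤ) : ℝ) * ((|h| : ℤ) : ℝ) := by
        have := Int.sign_mul_abs h
        exact_mod_cast this.symm
      have h5 : ((h.sign : ℤ) : ℝ) * ((h.sign : ℤ) : ℝ) = 1 := by
        have h6 : h.sign * h.sign = 1 := by
          rcases Int.lt_or_gt_of_ne hh with h7 | h7
          · rw [Int.sign_eq_neg_one_of_neg h7]; norm_num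
          · rw [Int.sign_eq_one_of_pos h7]; norm_num
        exact_mod_cast h6
      have h6 : ((|h| : ℤ) : ℝ) ≠ 0 := by
        rw [Int.cast_abs]
        positivity
      have h7 : ((h.sign : ℤ) : ℝ) ≠ 0 := by
        intro h8
        rw [h8] at h5
        norm_num at h5
      rw [div_eq_div_iff (by push_cast at h6 ⊢; positivity) hh0]
      rw [h4]
      push_cast at h5 ⊢
      linear_combination (2 * m * |(h : ℝ)|) * h5
    rw [h3] at h2
    have h4 : |(h : ℝ) * β - m| = |(h : ℝ)| * |β - m / h| := by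
      rw [← abs_mul]
      congr 1
      field_simp
    rw [h4]
    have h5 : (1 : ℝ) / ((2 * |h| : ℤ) : ℝ) ^ n = (2 * |(h : ℝ)|) ^ (-(n : ℝ)) := by
      rw [Real.rpow_neg (by positivity), Real.rpow_natCast, one_div]
      push_cast
      rfl
    rw [h5] at h2
    calc (2 * |(h : ℝ)|) ^ (-(n : ℝ)) ≤ |β - m / h| := h2
      _ ≤ |(h : ℝ)| * |β - m / h| := le_mul_of_one_le_left (abs_nonneg _) hh1
  choose n hn using h0
  set N : ℕ := ∑ i, n i with hN
  have hNi : ∀ i, n i ≤ N := fun i => Finset.single_le_sum (f := n) (fun _ _ => Nat.zero_le _) (mem_univ i)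
  refine ⟨N, (2 : ℝ) ^ (-(N : ℝ)), by positivity, ?_⟩
  intro h hh
  -- the index of the largest degree
  have hne : (univ.filter fun i => h i ≠ 0).Nonempty := by
    obtain ⟨i, hi⟩ := Function.ne_iff.mp hh
    exact ⟨i, mem_filter.mpr ⟨mem_univ _, hi⟩⟩
  obtain ⟨k, hk, hmax⟩ := exists_max_image _ (fun i => (Q i).natDegree) hne
  have hk0 : h k ≠ 0 := (mem_filter.mp hk).2
  have hkr : (h k : ℝ) ≠ 0 := by exact_mod_cast hk0
  have h1 : ∑ i, Polynomial.C (h i : ℝ) * Q i = Polynomial.C (h k : ℝ) * Q k +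
      ∑ i ∈ univ.erase k, Polynomial.C (h i : ℝ) * Q i :=
    (Finset.add_sum_erase _ _ (mem_univ k)).symm
  have h2 : (Polynomial.C (h k : ℝ) * Q k).natDegree = (Q k).natDegree :=
    Polynomial.natDegree_C_mul hkr
  have h3 : (∑ i ∈ univ.erase k, Polynomial.C (h i : ℝ) * Q i).natDegree ≤ (Q k).natDegree - 1 := by
    apply Polynomial.natDegree_sum_le_of_forall_le
    intro i hi
    by_cases hi0 : h i = 0
    · rw [hi0]
      simp
    · have h4 := hmax i (mem_filter.mpr ⟨mem_univ _, hi0⟩)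
      have h5 : (Q i).natDegree ≠ (Q k).natDegree := fun h6 => (mem_erase.mp hi).1 (hinj h6)
      have h6 := Polynomial.natDegree_C_mul_le (h i : ℝ) (Q i)
      omega
  have h4 : (∑ i ∈ univ.erase k, Polynomial.C (h i : ℝ) * Q i).natDegree <
      (Polynomial.C (h k : ℝ) * Q k).natDegree := by
    rw [h2]
    have := hdeg k
    omega
  have h5 : (∑ i, Polynomial.C (h i : ℝ) * Q i).natDegree = (Q k).natDegree := by
    rw [h1, Polynomial.natDegree_add_eq_left_of_natDegree_lt h4, h2]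
  have h6 : (∑ i, Polynomial.C (h i : ℝ) * Q i).leadingCoeff = (h k : ℝ) * (Q k).leadingCoeff := by
    rw [h1, Polynomial.leadingCoeff_add_of_degree_lt' (Polynomial.degree_lt_degree h4),
      Polynomial.leadingCoeff_mul, Polynomial.leadingCoeff_C]
  rw [h5, h6]
  refine ⟨hdeg k, ?_⟩
  intro H hH m
  refine le_trans ?_ (hn k (h k) m hk0)
  have h7 : (1 : ℝ) ≤ |(h k : ℝ)| := by
    rw [← Int.cast_abs]
    exact_mod_cast Int.one_le_abs hk0
  have h8 : 1 ≤ H := h7.trans (hH k)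
  rw [← Real.mul_rpow (by norm_num) (by linarith)]
  calc (2 * H) ^ (-(N : ℝ)) ≤ (2 * |(h k : ℝ)|) ^ (-(N : ℝ)) := by
        rw [Real.rpow_neg (by positivity), Real.rpow_neg (by positivity)]
        apply inv_anti₀ (by positivity)
        apply Real.rpow_le_rpow (by positivity) _ (by positivity)
        linarith [hH k]
    _ ≤ (2 * |(h k : ℝ)|) ^ (-(n k : ℝ)) := by
        apply Real.rpow_le_rpow_of_exponent_le (by linarith)
        have : (n k : ℝ) ≤ N := by exact_mod_cast hNi k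
        linarith

/-- every irrational number has good scales -/
lemma good_scales {β : ℝ} (hβ : Irrational β) :
    ∃ᶠ H : ℝ in atTop, ∀ h m : ℤ, h ≠ 0 → |(h : ℝ)| ≤ H → H ^ (-(3 : ℝ)) ≤ |(h : ℝ) * β - m| := by
  intro hcon
  rw [Filter.eventually_atTop] at hcon
  obtain ⟨H₀, hH⟩ := hcon
  set N₀ : ℕ := max ⌈H₀⌉₊ 2 with hN0
  have hex : ∀ N : ℕ, N₀ ≤ N → ∃ h m : ℤ, h ≠ 0 ∧ |(h : ℝ)| ≤ N ∧
      |(h : ℝ) * β - m| < (N : ℝ) ^ (-(3 : ℝ)) := by
    intro N hN
    have h1 : H₀ ≤ N := (Nat.le_ceil _).trans (by exact_mod_cast (le_max_left _ _).trans hN)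
    have h2 := hH N h1
    push Not at h2
    exact h2
  choose! h m hh hb hm using hex
  have h3 : ∀ N : ℕ, N₀ ≤ N → h N * m (N + 1) = h (N + 1) * m N := by
    intro N hN
    have hN2 : (2 : ℝ) ≤ N := by exact_mod_cast (le_max_right _ _).trans hN
    have ha := hm N hN
    have hc := hm (N + 1) (by omega)
    have hd := hb N hN
    have he := hb (N + 1) (by omega)
    push_cast at hc he
    have h4 : |((h N * m (N + 1) - h (N + 1) * m N : ℤ) : ℝ)| < 1 := by
      have h5 : ((h N * m (N + 1) - h (N + 1) * m N : ℤ) : ℝ) =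
          (h (N + 1) : ℝ) * ((h N : ℝ) * β - m N) - (h N : ℝ) * ((h (N + 1) : ℝ) * β - m (N + 1)) := by
        push_cast
        ring
      rw [h5]
      refine (abs_sub _ _).trans_lt ?_
      rw [abs_mul, abs_mul]
      have h6 : |(h (N + 1) : ℝ)| * |(h N : ℝ) * β - m N| ≤ (N + 1) * (N : ℝ) ^ (-(3 : ℝ)) :=
        mul_le_mul he ha.le (abs_nonneg _) (by positivity)
      have h7 : |(h N : ℝ)| * |(h (N + 1) : ℝ) * β - m (N + 1)| ≤ N * ((N : ℝ) + 1) ^ (-(3 : ℝ)) :=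
        mul_le_mul hd hc.le (abs_nonneg _) (by positivity)
      have h8 : ((N : ℝ) + 1) * (N : ℝ) ^ (-(3 : ℝ)) ≤ 3 / 8 := by
        rw [Real.rpow_neg (by positivity), show (3 : ℝ) = ((3 : ℕ) : ℝ) by norm_num,
          Real.rpow_natCast, ← div_eq_mul_inv, div_le_iff₀ (by positivity)]
        push_cast
        nlinarith [mul_nonneg (sub_nonneg.mpr hN2) (sq_nonneg (N : ℝ))]
      have h9 : (N : ℝ) * ((N : ℝ) + 1) ^ (-(3 : ℝ)) ≤ 1 / 4 := by
        rw [Real.rpow_neg (by positivity), show (3 : ℝ) = ((3 : ℕ) : ℝ) by norm_num,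
          Real.rpow_natCast, ← div_eq_mul_inv, div_le_iff₀ (by positivity)]
        nlinarith [mul_nonneg (sub_nonneg.mpr hN2) (sq_nonneg (N : ℝ)), sq_nonneg (N : ℝ)]
      linarith
    have h5 : |h N * m (N + 1) - h (N + 1) * m N| < 1 := by exact_mod_cast h4
    have h6 := Int.abs_lt_one_iff.mp h5
    linarith
  -- all the fractions are equal
  have h4 : ∀ k : ℕ, h N₀ * m (N₀ + k) = h (N₀ + k) * m N₀ := by
    intro k
    induction k with
    | zero => rfl
    | succ k ih =>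
      have h5 := h3 (N₀ + k) (by omega)
      have h6 := hh (N₀ + k) (by omega)
      have h7 : h (N₀ + k) * (h N₀ * m (N₀ + (k + 1))) = h (N₀ + k) * (h (N₀ + (k + 1)) * m N₀) := by
        rw [show N₀ + (k + 1) = N₀ + k + 1 by ring]
        calc h (N₀ + k) * (h N₀ * m (N₀ + k + 1)) = h N₀ * (h (N₀ + k) * m (N₀ + k + 1)) := by ring
          _ = h N₀ * (h (N₀ + k + 1) * m (N₀ + k)) := by rw [h5]
          _ = h (N₀ + k + 1) * (h N₀ * m (N₀ + k)) := by ring
          _ = h (N₀ + k + 1) * (h (N₀ + k) * m N₀) := by rw [ih]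
          _ = _ := by ring
      exact mul_left_cancel₀ h6 h7
  have hh0 : (h N₀ : ℝ) ≠ 0 := by exact_mod_cast hh N₀ le_rfl
  apply hβ
  refine ⟨(m N₀ : ℚ) / (h N₀ : ℚ), ?_⟩
  push_cast
  by_contra hne
  have h5 : 0 < |β - m N₀ / h N₀| := abs_pos.mpr (sub_ne_zero.mpr (Ne.symm hne))
  have h6 : ∀ k : ℕ, |β - m N₀ / h N₀| ≤ ((N₀ + k : ℕ) : ℝ) ^ (-(3 : ℝ)) := by
    intro k
    have h7 := hm (N₀ + k) (by omega)
    have h8 : (1 : ℝ) ≤ |(h (N₀ + k) : ℝ)| := by
      rw [← Int.cast_abs]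
      exact_mod_cast Int.one_le_abs (hh (N₀ + k) (by omega))
    have h9 : (h (N₀ + k) : ℝ) ≠ 0 := by
      intro h10
      rw [h10] at h8
      norm_num at h8
    have h10 : (h (N₀ + k) : ℝ) * β - m (N₀ + k) = (h (N₀ + k) : ℝ) * (β - m N₀ / h N₀) := by
      have h11 : (h N₀ : ℝ) * m (N₀ + k) = h (N₀ + k) * m N₀ := by exact_mod_cast h4 k
      field_simp
      linear_combination -h11
    rw [h10, abs_mul] at h7
    calc |β - m N₀ / h N₀| ≤ |(h (N₀ + k) : ℝ)| * |β - m N₀ / h N₀| :=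
          le_mul_of_one_le_left h5.le h8
      _ ≤ _ := h7.le
  have h7 : Tendsto (fun k : ℕ => ((N₀ + k : ℕ) : ℝ) ^ (-(3 : ℝ))) atTop (𝓝 0) := by
    have h8 : Tendsto (fun k : ℕ => ((N₀ + k : ℕ) : ℝ)) atTop atTop :=
      tendsto_natCast_atTop_atTop.comp (tendsto_add_atTop_nat N₀ |>.congr fun k => by ring)
    exact (tendsto_rpow_neg_atTop (by norm_num)).comp h8
  have h8 := ge_of_tendsto' h7 h6
  linarith

/-- the condition of `joint` for one polynomial with irrational leading coefficient -/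
lemma frequently_polyDio {Q : Polynomial ℝ} (hdeg : 1 ≤ Q.natDegree)
    (hirr : Irrational Q.leadingCoeff) {ε : ℝ} (hε : 0 < ε) (hε1 : ε ≤ 1 / 4) :
    ∃ᶠ Z : ℝ in atTop, PolyDio ε Z Q.natDegree (fun _ : Fin 1 => Q) := by
  have h1 := good_scales hirr
  -- `H = Z ^ ε`
  have h2 : ∃ᶠ Z : ℝ in atTop, ∀ h m : ℤ, h ≠ 0 → |(h : ℝ)| ≤ Z ^ ε →
      (Z ^ ε) ^ (-(3 : ℝ)) ≤ |(h : ℝ) * Q.leadingCoeff - m| := by
    rw [Filter.frequently_atTop] at h1 ⊢
    intro A
    obtain ⟨H, hH, hH2⟩ := h1 (max 1 ((max A 1) ^ ε))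
    have hH1 : 1 ≤ H := (le_max_left _ _).trans hH
    refine ⟨H ^ (1 / ε), ?_, ?_⟩
    · have h3 : (max A 1) ^ ε ≤ H := (le_max_right _ _).trans hH
      calc A ≤ max A 1 := le_max_left _ _
        _ = ((max A 1) ^ ε) ^ (1 / ε) := by
            rw [← Real.rpow_mul (le_trans zero_le_one (le_max_right _ _)), mul_one_div_cancel hε.ne',
              Real.rpow_one]
        _ ≤ H ^ (1 / ε) := Real.rpow_le_rpow (by positivity) h3 (by positivity)
    · have h3 : (H ^ (1 / ε)) ^ ε = H := by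
        rw [← Real.rpow_mul (by linarith), one_div_mul_cancel hε.ne', Real.rpow_one]
      rw [h3]
      exact hH2
  refine (h2.and_eventually (eventually_ge_atTop (1 : ℝ))).mono ?_
  rintro Z ⟨hZ, hZ1⟩ h hh hhb
  have hh0 : h 0 ≠ 0 := by
    intro h3
    apply hh
    funext i
    rw [Subsingleton.elim i 0, h3]
    rfl
  have hhr : (h 0 : ℝ) ≠ 0 := by exact_mod_cast hh0
  have h3 : ∑ i : Fin 1, Polynomial.C (h i : ℝ) * Q = Polynomial.C (h 0 : ℝ) * Q := by
    simp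
  rw [h3, Polynomial.natDegree_C_mul hhr]
  refine ⟨hdeg, le_rfl, ?_⟩
  intro m
  rw [Polynomial.leadingCoeff_mul, Polynomial.leadingCoeff_C]
  refine le_trans ?_ (hZ (h 0) m hh0 (hhb 0))
  rw [← Real.rpow_mul (by linarith)]
  apply Real.rpow_le_rpow_of_exponent_le hZ1
  have h4 : (1 : ℝ) ≤ (Q.natDegree : ℝ) := by exact_mod_cast hdeg
  nlinarith

end Pool.Agent.V5helper26.RP
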